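import Mathlib

/-!
# Carbery's rectangle problem for sets whose horizontal sections contain long intervals
-/

namespace Pool.Agent.Results.MP_888de5_co.LongSections

open MeasureTheory Set

/-- four points of `A` span an axis-parallel rectangle of area at least `b` -/
def HasRectangle (A : Set (ℝ × ℝ)) (b : ℝ) : Prop :=
  ∃ x₁ x₂ y₁ y₂ : ℝ, x₁ ≠ x₂ ∧ y₁ ≠ y₂ ∧ (x₁, y₁) ∈ A ∧ (x₂, y₁) ∈ A ∧ (x₁, y₂) ∈ A ∧
    (x₂, y₂) ∈ A ∧ b ≤ |x₁ - x₂| * |y₁ - y₂|

/-- the points of `A` which stay in `A` when they are moved by `h` to the right -/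
def shiftSet (A : Set (ℝ × ℝ)) (h : ℝ) : Set (ℝ × ℝ) := {p | p ∈ A ∧ (p.1 + h, p.2) ∈ A}

theorem shiftSet_open {A : Set (ℝ × ℝ)} (hA : IsOpen A) (h : ℝ) : IsOpen (shiftSet A h) := by
  have : Continuous fun p : ℝ × ℝ => (p.1 + h, p.2) := by fun_prop
  exact hA.inter (hA.preimage this)

/-- upper bound for the measure of `shiftSet` -/
theorem shift_le {A : Set (ℝ × ℝ)} (hA : IsOpen A) (hsub : A ⊆ Icc 0 1 ×ˢ Icc 0 1) {h b : ℝ}
    (hh : 0 < h) (hb : 0 ≤ b) (hno : ¬ HasRectangle A b) :
    volume (shiftSet A h) ≤ ENNReal.ofReal (b / h) := by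
  have hm : MeasurableSet (shiftSet A h) := (shiftSet_open hA h).measurableSet
  have hvol : volume (shiftSet A h) = ∫⁻ x, volume (Prod.mk x ⁻¹' shiftSet A h) := by
    rw [Measure.volume_eq_prod, Measure.prod_apply hm]
  rw [hvol]
  have hpt : ∀ x : ℝ, volume (Prod.mk x ⁻¹' shiftSet A h) ≤
      (Icc (0 : ℝ) 1).indicator (fun _ => ENNReal.ofReal (b / h)) x := by
    intro x
    by_cases hx : x ∈ Icc (0 : ℝ) 1
    · rw [indicator_of_mem hx]
      refine (Real.volume_le_diam _).trans (Metric.ediam_le fun y hy y' hy' => ?_)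
      rw [edist_dist, Real.dist_eq]
      refine ENNReal.ofReal_le_ofReal ?_
      by_cases hyy : y = y'
      · rw [hyy, sub_self, abs_zero]
        positivity
      · by_contra hcon
        push Not at hcon
        apply hno
        refine ⟨x, x + h, y, y', by linarith, hyy, hy.1, hy.2, hy'.1, hy'.2, ?_⟩
        rw [div_lt_iff₀ hh] at hcon
        have : |x - (x + h)| = h := by
          rw [show x - (x + h) = -h by ring, abs_neg, abs_of_pos hh]
        rw [this]
        linarith
    · rw [indicator_of_notMem hx]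
      have : Prod.mk x ⁻¹' shiftSet A h = ∅ := by
        ext y
        simp only [mem_preimage, mem_empty_iff_false, iff_false]
        intro hy
        exact hx (hsub hy.1).1
      rw [this, measure_empty]
  refine (lintegral_mono hpt).trans ?_
  rw [lintegral_indicator_const measurableSet_Icc, Real.volume_Icc]
  simp

/-- lower bound for the measure of `shiftSet` -/
theorem le_shift {A : Set (ℝ × ℝ)} (hA : IsOpen A) (hsub : A ⊆ Icc 0 1 ×ˢ Icc 0 1) {h θ : ℝ}
    (hh : 0 < h) (hθ : 0 < θ)
    (hsec : ∀ y : ℝ, ∃ u v : ℝ, Ioo u v ⊆ {x | (x, y) ∈ A} ∧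
      ENNReal.ofReal θ * volume {x | (x, y) ∈ A} ≤ ENNReal.ofReal (v - u)) :
    ENNReal.ofReal θ * volume A ≤ volume (shiftSet A h) + ENNReal.ofReal h := by
  have hm : MeasurableSet (shiftSet A h) := (shiftSet_open hA h).measurableSet
  have hvolA : volume A = ∫⁻ y, volume ((fun x => (x, y)) ⁻¹' A) := by
    rw [Measure.volume_eq_prod, Measure.prod_apply_symm hA.measurableSet]
  have hvolS : volume (shiftSet A h) = ∫⁻ y, volume ((fun x => (x, y)) ⁻¹' shiftSet A h) := by
    rw [Measure.volume_eq_prod, Measure.prod_apply_symm hm]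
  have hpt : ∀ y : ℝ, ENNReal.ofReal θ * volume ((fun x => (x, y)) ⁻¹' A) ≤
      volume ((fun x => (x, y)) ⁻¹' shiftSet A h) +
        (Icc (0 : ℝ) 1).indicator (fun _ => ENNReal.ofReal h) y := by
    intro y
    by_cases hy : y ∈ Icc (0 : ℝ) 1
    · rw [indicator_of_mem hy]
      obtain ⟨u, v, huv, hle⟩ := hsec y
      refine hle.trans ?_
      have h1 : Ioo u (v - h) ⊆ (fun x => (x, y)) ⁻¹' shiftSet A h := by
        intro x hx
        exact ⟨huv ⟨hx.1, by linarith [hx.2]⟩, huv ⟨by linarith [hx.1], by linarith [hx.2]⟩⟩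
      have h2 : ENNReal.ofReal (v - h - u) ≤ volume ((fun x => (x, y)) ⁻¹' shiftSet A h) := by
        rw [← Real.volume_Ioo]
        exact measure_mono h1
      calc ENNReal.ofReal (v - u) = ENNReal.ofReal ((v - h - u) + h) := by congr 1; ring
        _ ≤ ENNReal.ofReal (v - h - u) + ENNReal.ofReal h := ENNReal.ofReal_add_le
        _ ≤ _ := by gcongr
    · have : (fun x => (x, y)) ⁻¹' A = ∅ := by
        ext x
        simp only [mem_preimage, mem_empty_iff_false, iff_false]
        intro hx
        exact hy (hsub hx).2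
      rw [this, measure_empty, mul_zero]
      exact zero_le
  have hmeas : Measurable fun y : ℝ => volume ((fun x => (x, y)) ⁻¹' A) :=
    measurable_measure_prodMk_right hA.measurableSet
  calc ENNReal.ofReal θ * volume A
      = ∫⁻ y, ENNReal.ofReal θ * volume ((fun x => (x, y)) ⁻¹' A) := by
        rw [hvolA, lintegral_const_mul _ hmeas]
    _ ≤ ∫⁻ y, (volume ((fun x => (x, y)) ⁻¹' shiftSet A h) +
        (Icc (0 : ℝ) 1).indicator (fun _ => ENNReal.ofReal h) y) := lintegral_mono hpt
    _ = volume (shiftSet A h) + ENNReal.ofReal h := by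
        rw [lintegral_add_right _ (measurable_const.indicator measurableSet_Icc), ← hvolS,
          lintegral_indicator_const measurableSet_Icc, Real.volume_Icc]
        simp

/-- **Carbery's rectangle problem for sets with long sections.**
Let `A ⊆ [0,1]²` be open with measure `α > 0`.
(1) For every `h > 0` and `b < h λ(A ∩ (A - (h, 0)))`, `b ≥ 0`, four points of `A` span an
axis-parallel rectangle of area at least `b`.
(2) If every horizontal section of `A` contains an interval of length at least `θ` times the measure of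
the section (for example `θ = 1/m` if the sections are unions of at most `m` intervals), then for
every `c < θ² / 4` four points of `A` span an axis-parallel rectangle of area at least `c α²`. -/
theorem result :
    (∀ A : Set (ℝ × ℝ), IsOpen A → A ⊆ Icc 0 1 ×ˢ Icc 0 1 → ∀ h b : ℝ, 0 < h → 0 ≤ b →
      b < h * (volume {p : ℝ × ℝ | p ∈ A ∧ (p.1 + h, p.2) ∈ A}).toReal → HasRectangle A b) ∧
    (∀ A : Set (ℝ × ℝ), IsOpen A → A ⊆ Icc 0 1 ×ˢ Icc 0 1 → 0 < volume A → ∀ θ : ℝ, 0 < θ →
      (∀ y : ℝ, ∃ u v : ℝ, Ioo u v ⊆ {x | (x, y) ∈ A} ∧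
        ENNReal.ofReal θ * volume {x | (x, y) ∈ A} ≤ ENNReal.ofReal (v - u)) →
      ∀ c : ℝ, c < θ ^ 2 / 4 → HasRectangle A (c * (volume A).toReal ^ 2)) := by
  constructor
  · intro A hA hsub h b hh hb hlt
    by_contra hno
    have h1 := shift_le hA hsub hh hb hno
    have h2 : (volume (shiftSet A h)).toReal ≤ b / h :=
      ENNReal.toReal_le_of_le_ofReal (by positivity) h1
    rw [le_div_iff₀ hh] at h2
    have h3 : b < h * (volume (shiftSet A h)).toReal := hlt
    linarith
  · intro A hA hsub hpos θ hθ hsec c hc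
    have hfin : volume A ≠ ⊤ := by
      refine ne_top_of_le_ne_top ?_ (measure_mono hsub)
      rw [Measure.volume_eq_prod, Measure.prod_prod, Real.volume_Icc]
      simp
    set α := (volume A).toReal with hα
    have hα0 : 0 < α := ENNReal.toReal_pos hpos.ne' hfin
    have hAα : volume A = ENNReal.ofReal α := (ENNReal.ofReal_toReal hfin).symm
    by_contra hno
    set b := max (c * α ^ 2) 0 with hb
    have hb0 : 0 ≤ b := le_max_right _ _
    have hno' : ¬ HasRectangle A b := by
      rintro ⟨x₁, x₂, y₁, y₂, h1, h2, h3, h4, h5, h6, h7⟩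
      exact hno ⟨x₁, x₂, y₁, y₂, h1, h2, h3, h4, h5, h6, (le_max_left _ _).trans h7⟩
    have hh : 0 < θ * α / 2 := by positivity
    have h1 := shift_le hA hsub hh hb0 hno'
    have h2 := le_shift hA hsub hh hθ hsec
    rw [hAα, ← ENNReal.ofReal_mul hθ.le] at h2
    have h3 : ENNReal.ofReal (θ * α) ≤ ENNReal.ofReal (b / (θ * α / 2) + θ * α / 2) := by
      rw [ENNReal.ofReal_add (by positivity) hh.le]
      exact h2.trans (by gcongr)
    have h4 : θ * α ≤ b / (θ * α / 2) + θ * α / 2 :=
      (ENNReal.ofReal_le_ofReal_iff (by positivity)).mp h3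
    have h5 : θ * α / 2 ≤ b / (θ * α / 2) := by linarith
    rw [le_div_iff₀ hh] at h5
    have h6 : b < θ ^ 2 / 4 * α ^ 2 := by
      rw [hb]
      refine max_lt ?_ (by positivity)
      have : 0 < α ^ 2 := by positivity
      nlinarith
    nlinarith

end Pool.Agent.Results.MP_888de5_co.LongSections
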